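import Pool.Agent.Work.MP_2ceb02_lc.Opened

/-!
# Circuits of generalized symmetric gates
-/

namespace Pool.Agent.Work.MP_2ceb02_lc

open Finset

/-- A circuit of `G` generalized symmetric gates with `n` inputs and `m` outputs. The wires are
numbered: the wires `0, ..., n - 1` are the inputs and the wire `n + g` is the output of the gate
`g`. The gate `g` outputs `act g σ`, where `σ` is the sum in `ZMod (md g)` of the values of its
`terms g` terms and `act g` is any function; the term `a` is any function `term g a` of `l` bits,
the bit `i` being the sum (exclusive or) of the earlier wires in the set `form g a i`. The output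
`k` is the exclusive or of the wires in `out k`. -/
structure SumCircuit (n m G l : ℕ) where
  md : Fin G → ℕ
  md_pos : ∀ g, 0 < md g
  terms : Fin G → ℕ
  form : (g : Fin G) → Fin (terms g) → Fin l → Finset (Fin (n + g))
  term : (g : Fin G) → Fin (terms g) → (Fin l → ZMod 2) → ZMod (md g)
  act : (g : Fin G) → ZMod (md g) → ZMod 2
  out : Fin m → Finset (Fin (n + G))

namespace SumCircuit

variable {n m G l : ℕ} (C : SumCircuit n m G l)

/-- The value of the wire `t`. -/
def wire (x : Fin n → ZMod 2) (t : ℕ) : ZMod 2 :=
  if h : t < n then x ⟨t, h⟩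
  else if h' : t - n < G then
    C.act ⟨t - n, h'⟩ (∑ a, C.term ⟨t - n, h'⟩ a
      (fun i => ∑ w ∈ C.form ⟨t - n, h'⟩ a i, wire x w))
  else 0
termination_by t
decreasing_by
  have := w.2
  simp only at this
  omega

/-- The function computed by a circuit. -/
def eval (x : Fin n → ZMod 2) : Fin m → ZMod 2 :=
  fun k => ∑ w ∈ C.out k, C.wire x w

end SumCircuit

end Pool.Agent.Work.MP_2ceb02_lc
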