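import Pool.Agent.Work.MP_2ceb02_lc.Sym.Secure
import Mathlib.Analysis.SpecialFunctions.Log.Base

/-!
# The cost in terms of the average modulus
-/

namespace Pool.Agent.Work.MP_2ceb02_lc

open Finset

theorem clog_le_logb (q : ℕ) (hq : 0 < q) : (Nat.clog 2 q : ℝ) ≤ Real.logb 2 q + 1 := by
  rcases Nat.lt_or_ge 1 q with h | h
  · have h1 : Nat.clog 2 q ≠ 0 := by
      have := Nat.clog_pos (b := 2) (by norm_num) (show 2 ≤ q by omega)
      omega
    obtain ⟨k, hk⟩ := Nat.exists_eq_succ_of_ne_zero h1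
    have h2 : 2 ^ k < q := by
      rw [← Nat.lt_clog_iff_pow_lt (by norm_num)]
      omega
    rw [hk, Nat.succ_eq_add_one]
    push_cast
    have h3 : (k : ℝ) ≤ Real.logb 2 q := by
      rw [Real.le_logb_iff_rpow_le (by norm_num) (by exact_mod_cast hq), Real.rpow_natCast]
      exact_mod_cast h2.le
    linarith
  · obtain rfl : q = 1 := by omega
    simp

theorem sum_clog_le {G : ℕ} (q : Fin G → ℕ) (hq : ∀ g, 0 < q g) :
    ((∑ g, (Nat.clog 2 (q g) + 1) : ℕ) : ℝ) ≤
      G * (2 + Real.logb 2 ((∑ g, (q g : ℝ)) / G)) := by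
  rcases Nat.eq_zero_or_pos G with rfl | hG
  · simp
  have hGR : (0 : ℝ) < G := by exact_mod_cast hG
  have hM : (0 : ℝ) < ∑ g, (q g : ℝ) :=
    Finset.sum_pos (fun g _ => by exact_mod_cast hq g) ⟨⟨0, hG⟩, mem_univ _⟩
  set M : ℝ := ∑ g, (q g : ℝ) with hMdef
  have hl2 : (0 : ℝ) < Real.log 2 := Real.log_pos (by norm_num)
  have h1 : ∀ g, (Nat.clog 2 (q g) : ℝ) + 1 ≤
      2 + Real.logb 2 (M / G) + (q g * G / M - 1) / Real.log 2 := by
    intro g
    have hqg : (0 : ℝ) < q g := by exact_mod_cast hq g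
    have h2 := clog_le_logb (q g) (hq g)
    have h3 : Real.logb 2 (q g) = Real.logb 2 (M / G) + Real.log (q g * G / M) / Real.log 2 := by
      unfold Real.logb
      rw [← add_div, ← Real.log_mul (by positivity) (by positivity)]
      congr 2
      field_simp
    have h4 : Real.log (q g * G / M) ≤ q g * G / M - 1 := Real.log_le_sub_one_of_pos (by positivity)
    have h5 := div_le_div_of_nonneg_right h4 hl2.le
    linarith
  push_cast
  calc ∑ g, ((Nat.clog 2 (q g) : ℝ) + 1)
      ≤ ∑ g, (2 + Real.logb 2 (M / G) + (q g * G / M - 1) / Real.log 2) :=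
        Finset.sum_le_sum fun g _ => h1 g
    _ = G * (2 + Real.logb 2 (M / G)) := by
        rw [Finset.sum_add_distrib, Finset.sum_const, card_univ, Fintype.card_fin, nsmul_eq_mul,
          ← Finset.sum_div, Finset.sum_sub_distrib, ← Finset.sum_div, ← Finset.sum_mul, ← hMdef,
          Finset.sum_const, card_univ, Fintype.card_fin, nsmul_eq_mul]
        have : M * G / M - G * 1 = 0 := by field_simp; ring
        rw [this]
        ring

end Pool.Agent.Work.MP_2ceb02_lc
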