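import Pool.Agent.Work.MP_2ceb02_lc.Sym.Defs

/-!
# The protocol for circuits of generalized symmetric gates
-/

namespace Pool.Agent.Work.MP_2ceb02_lc

open Finset

namespace SumCircuit

variable {n m G l : ℕ} (C : SumCircuit n m G l)

instance instNeZero (g : Fin G) : NeZero (C.md g) := ⟨(C.md_pos g).ne'⟩

theorem wire_input (x : Fin n → ZMod 2) (j : Fin n) : C.wire x j = x j := by
  rw [wire]; simp

/-- The arguments of a term. -/
def fs (g : Fin G) (a : Fin (C.terms g)) (y : ℕ → ZMod 2) : Fin l → ZMod 2 :=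
  fun i => ∑ w ∈ C.form g a i, y w

/-- The sum of the terms of a gate. -/
def tot (g : Fin G) (y : ℕ → ZMod 2) : ZMod (C.md g) := ∑ a, C.term g a (C.fs g a y)

/-- An output form. -/
def fo (k : Fin m) (y : ℕ → ZMod 2) : ZMod 2 := ∑ w ∈ C.out k, y w

theorem wire_gate (x : Fin n → ZMod 2) (g : Fin G) :
    C.wire x (n + g) = C.act g (C.tot g (C.wire x)) := by
  rw [wire]
  have h1 : ¬ (n + (g : ℕ) < n) := by omega
  have h2 : n + (g : ℕ) - n = g := by omega
  have h3 : n + (g : ℕ) - n < G := by rw [h2]; exact g.2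
  rw [dif_neg h1, dif_pos h3]
  have key : ∀ g' : Fin G, g' = g → C.act g' (∑ a, C.term g' a
      (fun i => ∑ w ∈ C.form g' a i, C.wire x w)) = C.act g (C.tot g (C.wire x)) := by
    intro g' hg; subst hg; rfl
  exact key _ (Fin.ext h2)

theorem fs_congr {g : Fin G} {a : Fin (C.terms g)} {y y' : ℕ → ZMod 2}
    (h : ∀ w < n + (g : ℕ), y w = y' w) : C.fs g a y = C.fs g a y' := by
  funext i
  exact Finset.sum_congr rfl fun w _ => h w w.2

theorem fo_congr {k : Fin m} {y y' : ℕ → ZMod 2}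
    (h : ∀ w < n + G, y w = y' w) : C.fo k y = C.fo k y' :=
  Finset.sum_congr rfl fun w _ => h w w.2

theorem fs_add (g : Fin G) (a : Fin (C.terms g)) (y y' : ℕ → ZMod 2) :
    C.fs g a (fun w => y w + y' w) = fun i => C.fs g a y i + C.fs g a y' i := by
  funext i
  exact Finset.sum_add_distrib

theorem fo_add (k : Fin m) (y y' : ℕ → ZMod 2) :
    C.fo k (fun w => y w + y' w) = C.fo k y + C.fo k y' :=
  Finset.sum_add_distrib

/-- Masks extended by zero. -/
def RR (n G : ℕ) (r : Fin (n + G) → ZMod 2) : ℕ → ZMod 2 :=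
  fun w => if h : w < n + G then r ⟨w, h⟩ else 0

/-- The randomness of the dealer. -/
@[ext] structure Rnd (N : ℕ) where
  r : Fin (n + G) → ZMod 2
  ρ : (g : Fin G) → Fin N → ZMod (C.md g)
  K : (g : Fin G) → Fin (C.terms g) → Fin N → (Fin l → ZMod 2) → ZMod (C.md g)
  T : (g : Fin G) → Fin N → ZMod (C.md g) → ZMod 2
  O : Fin m → Fin N → ZMod 2
  hK : ∀ g a y, ∑ p, K g a p y = C.term g a (fun i => y i + C.fs g a (RR n G r) i)
  hT : ∀ g u, ∑ p, T g p u = C.act g (u - ∑ p, ρ g p) + RR n G r (n + g)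
  hO : ∀ k, ∑ p, O k p = C.fo k (RR n G r)

theorem finite_rnd (N : ℕ) : Finite (C.Rnd N) := by
  have i0 : ∀ g, Finite (ZMod (C.md g)) := fun g => inferInstance
  have i1 : Finite ((g : Fin G) → Fin (C.terms g) → Fin N → (Fin l → ZMod 2) →
      ZMod (C.md g)) := inferInstance
  have i2 : Finite ((g : Fin G) → Fin N → ZMod (C.md g) → ZMod 2) := inferInstance
  have i3 : Finite ((Fin (n + G) → ZMod 2) × ((g : Fin G) → Fin N → ZMod (C.md g))) :=
    inferInstance
  have i4 : Finite (Fin m → Fin N → ZMod 2) := inferInstance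
  have i5 : Finite (((g : Fin G) → Fin (C.terms g) → Fin N → (Fin l → ZMod 2) →
      ZMod (C.md g)) × ((g : Fin G) → Fin N → ZMod (C.md g) → ZMod 2) ×
      (Fin m → Fin N → ZMod 2)) := @Finite.instProd _ _ i1 (@Finite.instProd _ _ i2 i4)
  exact Finite.of_injective (fun ω : C.Rnd N => ((ω.r, ω.ρ), (ω.K, ω.T, ω.O))) (by
    intro ω ω' h
    simp only [Prod.mk.injEq] at h
    exact Rnd.ext h.1.1 h.1.2 h.2.1 h.2.2.1 h.2.2.2)

noncomputable instance instFintypeRnd (N : ℕ) : Fintype (C.Rnd N) := by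
  have := C.finite_rnd N
  exact Fintype.ofFinite _

theorem nonempty_rnd {N : ℕ} (hN : 0 < N) : Nonempty (C.Rnd N) := by
  classical
  exact ⟨{ r := 0
           ρ := 0
           K := fun g a p y => if p = ⟨0, hN⟩ then
             C.term g a (fun i => y i + C.fs g a (RR n G 0) i) else 0
           T := fun g p u => if p = ⟨0, hN⟩ then C.act g (u - ∑ _p : Fin N, (0 : ZMod (C.md g))) +
             RR n G 0 (n + g) else 0
           O := fun k p => if p = ⟨0, hN⟩ then C.fo k (RR n G 0) else 0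
           hK := by intro g a y; simp
           hT := by intro g u; simp
           hO := by intro k; simp }⟩

/-! ### Public values -/

section Pub

variable {N : ℕ} (b : ℕ) {bl : Fin G → ℕ}

/-- The masked values read from the history. -/
def Z (n : ℕ) (H : ℕ → Fin N → ZMod 2) (w : ℕ) : ZMod 2 :=
  if w < n then ∑ p, H w p else ∑ p, H (n + (w - n) * (b + 1) + b) p

/-- The masked sums read from the history. -/
def U (dec : (g : Fin G) → (Fin (bl g) → ZMod 2) → ZMod (C.md g)) (H : ℕ → Fin N → ZMod 2)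
    (g : Fin G) : ZMod (C.md g) :=
  ∑ p, dec g (fun i => H (n + g * (b + 1) + i) p)

/-- The share of a masked sum. -/
def share (k : (g : Fin G) → Fin (C.terms g) → (Fin l → ZMod 2) → ZMod (C.md g))
    (ρ : (g : Fin G) → ZMod (C.md g)) (H : ℕ → Fin N → ZMod 2) (g : Fin G) : ZMod (C.md g) :=
  ∑ a, k g a (C.fs g a (Z b n H)) + ρ g

/-- The truncated history. -/
def trunc (t : ℕ) (H : ℕ → Fin N → ZMod 2) : ℕ → Fin N → ZMod 2 :=
  fun s p => if s < t then H s p else 0

/-- A finite history extended by zero. -/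
def hx (t : ℕ) (H : Fin t → Fin N → ZMod 2) : ℕ → Fin N → ZMod 2 :=
  fun s p => if h : s < t then H ⟨s, h⟩ p else 0

theorem hx_eq (t : ℕ) (H : ℕ → Fin N → ZMod 2) :
    hx t (fun u : Fin t => H u) = trunc t H := by
  funext s p
  simp only [hx, trunc]
  split_ifs <;> rfl

theorem pos_lt {g' g : ℕ} (h : g' < g) : g' * (b + 1) + b < g * (b + 1) := by
  have : (g' + 1) * (b + 1) ≤ g * (b + 1) := Nat.mul_le_mul_right _ h
  have e : (g' + 1) * (b + 1) = g' * (b + 1) + (b + 1) := by ring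
  omega

theorem Z_trunc (t g : ℕ) (ht : n + g * (b + 1) ≤ t) (H : ℕ → Fin N → ZMod 2) (w : ℕ)
    (hw : w < n + g) : Z b n (trunc t H) w = Z b n H w := by
  unfold Z
  split_ifs with h
  · refine Finset.sum_congr rfl fun p _ => ?_
    simp only [trunc]
    rw [if_pos (by omega)]
  · refine Finset.sum_congr rfl fun p _ => ?_
    simp only [trunc]
    have := pos_lt b (show w - n < g by omega)
    rw [if_pos (by omega)]

theorem U_trunc (dec : (g : Fin G) → (Fin (bl g) → ZMod 2) → ZMod (C.md g)) (t : ℕ) (g : Fin G)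
    (hb : bl g ≤ b) (ht : n + g * (b + 1) + b ≤ t)
    (H : ℕ → Fin N → ZMod 2) : C.U b dec (trunc t H) g = C.U b dec H g := by
  unfold U
  refine Finset.sum_congr rfl fun p _ => ?_
  congr 1
  funext i
  simp only [trunc]
  rw [if_pos (by have := i.2; omega)]

theorem share_congr (k : (g : Fin G) → Fin (C.terms g) → (Fin l → ZMod 2) → ZMod (C.md g))
    (ρ : (g : Fin G) → ZMod (C.md g)) (H H' : ℕ → Fin N → ZMod 2) (g : Fin G)
    (h : ∀ w < n + (g : ℕ), Z b n H w = Z b n H' w) :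
    C.share b k ρ H g = C.share b k ρ H' g := by
  unfold share
  congr 1
  refine Finset.sum_congr rfl fun a _ => ?_
  rw [C.fs_congr h]

end Pub

/-! ### The protocol -/

variable {N : ℕ} (own : Fin n → Fin N) {b : ℕ} {bl : Fin G → ℕ}
  (enc : (g : Fin G) → ZMod (C.md g) → Fin (bl g) → ZMod 2)
  (dec : (g : Fin G) → (Fin (bl g) → ZMod 2) → ZMod (C.md g))

/-- The protocol. -/
noncomputable def prot (b : ℕ) (hN : 0 < N) : Protocol N n m own where
  Rand := C.Rnd N
  fin := C.instFintypeRnd N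
  ne := C.nonempty_rnd hN
  Store := fun p => ({j : Fin n // own j = p} → ZMod 2) × ((g : Fin G) → ZMod (C.md g)) ×
    ((g : Fin G) → Fin (C.terms g) → (Fin l → ZMod 2) → ZMod (C.md g)) ×
    ((g : Fin G) → ZMod (C.md g) → ZMod 2) × (Fin m → ZMod 2)
  deal := fun ω p => (fun j => ω.r ⟨j.1, by omega⟩, fun g => ω.ρ g p, fun g a => ω.K g a p,
    fun g => ω.T g p, fun k => ω.O k p)
  rounds := n + (G * (b + 1) + m)
  speakers := fun t => if h : t < n then {own ⟨t, h⟩}
    else if h1 : (t - n) / (b + 1) < G then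
      if (t - n) % (b + 1) < bl ⟨(t - n) / (b + 1), h1⟩ ∨ (t - n) % (b + 1) = b then univ else ∅
    else univ
  msg := fun t p xp st hist =>
    if h : ∃ h : t < n, own ⟨t, h⟩ = p then
      xp ⟨⟨t, h.1⟩, h.2⟩ + st.1 ⟨⟨t, h.1⟩, h.2⟩
    else if h1 : n ≤ t ∧ (t - n) / (b + 1) < G then
      if h2 : (t - n) % (b + 1) < bl ⟨(t - n) / (b + 1), h1.2⟩ then
        enc ⟨(t - n) / (b + 1), h1.2⟩
          (C.share b st.2.2.1 st.2.1 (hx t hist) ⟨(t - n) / (b + 1), h1.2⟩)
          ⟨(t - n) % (b + 1), h2⟩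
      else if (t - n) % (b + 1) = b then
        st.2.2.2.1 ⟨(t - n) / (b + 1), h1.2⟩
          (C.U b dec (hx t hist) ⟨(t - n) / (b + 1), h1.2⟩)
      else 0
    else if h3 : t - (n + G * (b + 1)) < m then st.2.2.2.2 ⟨t - (n + G * (b + 1)), h3⟩
    else 0
  output := fun _ _ _ tr k => C.fo k (Z b n (hx (n + (G * (b + 1) + m)) tr)) +
    ∑ q, tr ⟨n + (G * (b + 1) + k), by omega⟩ q

section

variable (hN : 0 < N) (x : Fin n → ZMod 2) (ω : C.Rnd N)

theorem bit_input (j : Fin n) (p : Fin N) :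
    (C.prot own enc dec b hN).bit x ω j p = if own j = p then x j + RR n G ω.r j else 0 := by
  rw [Protocol.bit]
  have hs : (C.prot own enc dec b hN).speakers j = {own j} := by
    simp [prot]
  rw [hs]
  by_cases h : own j = p
  · subst h
    have hj : (j : ℕ) < n + G := by omega
    simp [prot, RR, hj]
  · have : p ∉ ({own j} : Finset (Fin N)) := by
      simp only [mem_singleton]
      exact fun h' => h h'.symm
    rw [if_neg this, if_neg h]

theorem bit_share (hbl : ∀ g, bl g ≤ b) (g : Fin G) (i : Fin (bl g)) (p : Fin N) :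
    (C.prot own enc dec b hN).bit x ω (n + (g * (b + 1) + i)) p =
      enc g (C.share b (fun g a => ω.K g a p) (fun g => ω.ρ g p)
        ((C.prot own enc dec b hN).bit x ω) g) i := by
  rw [Protocol.bit]
  have hi := i.2
  have hg := hbl g
  have h1 : ¬ (n + ((g : ℕ) * (b + 1) + (i : ℕ)) < n) := by omega
  have h4 : ¬ ∃ h : n + ((g : ℕ) * (b + 1) + (i : ℕ)) < n, own ⟨_, h⟩ = p := fun h => h1 h.1
  have e0 : n + ((g : ℕ) * (b + 1) + (i : ℕ)) - n = g * (b + 1) + i := by omega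
  have hdm := (Nat.div_mod_unique (a := (g : ℕ) * (b + 1) + i) (b := b + 1) (c := i) (d := g)
    (Nat.succ_pos b)).2 ⟨by ring, by omega⟩
  have h5 : n ≤ n + ((g : ℕ) * (b + 1) + (i : ℕ)) ∧
      (n + ((g : ℕ) * (b + 1) + (i : ℕ)) - n) / (b + 1) < G := by
    refine ⟨by omega, ?_⟩
    rw [e0, hdm.1]; exact g.2
  have hg' : (⟨(n + ((g : ℕ) * (b + 1) + (i : ℕ)) - n) / (b + 1), h5.2⟩ : Fin G) = g :=
    Fin.ext (by simp only; rw [e0, hdm.1])
  have h6 : (n + ((g : ℕ) * (b + 1) + (i : ℕ)) - n) % (b + 1) <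
      bl ⟨(n + ((g : ℕ) * (b + 1) + (i : ℕ)) - n) / (b + 1), h5.2⟩ := by
    rw [hg', e0, hdm.2]; exact i.2
  have hs : p ∈ (C.prot own enc dec b hN).speakers (n + (g * (b + 1) + i)) := by
    simp only [prot]; rw [dif_neg h1, dif_pos h5.2, if_pos (Or.inl h6)]; exact mem_univ _
  rw [if_pos hs]
  simp only [prot, dif_neg h4, dif_pos h5, dif_pos h6]
  have key : ∀ (g' : Fin G) (i' : Fin (bl g')), g' = g → (i' : ℕ) = i →
      enc g' (C.share b (fun g a => ω.K g a p) (fun g => ω.ρ g p)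
        (hx (n + ((g : ℕ) * (b + 1) + (i : ℕ)))
          (fun u => (C.prot own enc dec b hN).bit x ω u)) g') i' =
      enc g (C.share b (fun g a => ω.K g a p) (fun g => ω.ρ g p)
        ((C.prot own enc dec b hN).bit x ω) g) i := by
    intro g' i' hg hi
    subst hg
    obtain rfl : i' = i := Fin.ext hi
    rw [hx_eq]
    refine congrArg (fun s => enc g' s i') ?_
    apply C.share_congr
    intro w hw
    exact Z_trunc b _ g' (by omega) _ w hw
  exact key ⟨_, h5.2⟩ ⟨_, h6⟩ hg' (by simp only; rw [e0, hdm.2])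

theorem bit_table (hbl : ∀ g, bl g ≤ b) (g : Fin G) (p : Fin N) :
    (C.prot own enc dec b hN).bit x ω (n + (g * (b + 1) + b)) p =
      ω.T g p (C.U b dec ((C.prot own enc dec b hN).bit x ω) g) := by
  rw [Protocol.bit]
  have hg := hbl g
  have h1 : ¬ (n + ((g : ℕ) * (b + 1) + b) < n) := by omega
  have h4 : ¬ ∃ h : n + ((g : ℕ) * (b + 1) + b) < n, own ⟨_, h⟩ = p := fun h => h1 h.1
  have e0 : n + ((g : ℕ) * (b + 1) + b) - n = g * (b + 1) + b := by omega
  have hdm := (Nat.div_mod_unique (a := (g : ℕ) * (b + 1) + b) (b := b + 1) (c := b) (d := g)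
    (Nat.succ_pos b)).2 ⟨by ring, by omega⟩
  have h5 : n ≤ n + ((g : ℕ) * (b + 1) + b) ∧
      (n + ((g : ℕ) * (b + 1) + b) - n) / (b + 1) < G := by
    refine ⟨by omega, ?_⟩
    rw [e0, hdm.1]; exact g.2
  have hg' : (⟨(n + ((g : ℕ) * (b + 1) + b) - n) / (b + 1), h5.2⟩ : Fin G) = g :=
    Fin.ext (by simp only; rw [e0, hdm.1])
  have h7 : (n + ((g : ℕ) * (b + 1) + b) - n) % (b + 1) = b := by rw [e0, hdm.2]
  have h6 : ¬ (n + ((g : ℕ) * (b + 1) + b) - n) % (b + 1) <
      bl ⟨(n + ((g : ℕ) * (b + 1) + b) - n) / (b + 1), h5.2⟩ := by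
    rw [hg', h7]; omega
  have hs : p ∈ (C.prot own enc dec b hN).speakers (n + (g * (b + 1) + b)) := by
    simp only [prot]; rw [dif_neg h1, dif_pos h5.2, if_pos (Or.inr h7)]; exact mem_univ _
  rw [if_pos hs]
  simp only [prot, dif_neg h4, dif_pos h5, dif_neg h6, if_pos h7]
  have key : ∀ (g' : Fin G), g' = g →
      ω.T g' p (C.U b dec (hx (n + ((g : ℕ) * (b + 1) + b))
          (fun u => (C.prot own enc dec b hN).bit x ω u)) g') =
      ω.T g p (C.U b dec ((C.prot own enc dec b hN).bit x ω) g) := by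
    intro g' hg
    subst hg
    rw [hx_eq]
    congr 1
    exact C.U_trunc b dec _ g' (hbl g') (by omega) _
  exact key ⟨_, h5.2⟩ hg'

theorem bit_silent (g : Fin G) (i : ℕ) (hi : bl g ≤ i) (hib : i ≠ b) (hi' : i < b + 1)
    (p : Fin N) : (C.prot own enc dec b hN).bit x ω (n + (g * (b + 1) + i)) p = 0 := by
  rw [Protocol.bit]
  have h1 : ¬ (n + ((g : ℕ) * (b + 1) + i) < n) := by omega
  have e0 : n + ((g : ℕ) * (b + 1) + i) - n = g * (b + 1) + i := by omega
  have hdm := (Nat.div_mod_unique (a := (g : ℕ) * (b + 1) + i) (b := b + 1) (c := i) (d := g)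
    (Nat.succ_pos b)).2 ⟨by ring, by omega⟩
  have h5 : (n + ((g : ℕ) * (b + 1) + i) - n) / (b + 1) < G := by
    rw [e0, hdm.1]; exact g.2
  have hg' : (⟨(n + ((g : ℕ) * (b + 1) + i) - n) / (b + 1), h5⟩ : Fin G) = g :=
    Fin.ext (by simp only; rw [e0, hdm.1])
  have h7 : (n + ((g : ℕ) * (b + 1) + i) - n) % (b + 1) = i := by rw [e0, hdm.2]
  have hs : p ∉ (C.prot own enc dec b hN).speakers (n + (g * (b + 1) + i)) := by
    simp only [prot]
    rw [dif_neg h1, dif_pos h5, hg', h7, if_neg (by omega)]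
    simp
  rw [if_neg hs]

theorem bit_out (k : Fin m) (p : Fin N) :
    (C.prot own enc dec b hN).bit x ω (n + (G * (b + 1) + k)) p = ω.O k p := by
  rw [Protocol.bit]
  have h1 : ¬ (n + (G * (b + 1) + (k : ℕ)) < n) := by omega
  have h4 : ¬ ∃ h : n + (G * (b + 1) + (k : ℕ)) < n, own ⟨_, h⟩ = p := fun h => h1 h.1
  have e0 : n + (G * (b + 1) + (k : ℕ)) - n = G * (b + 1) + k := by omega
  have h5 : ¬ (n ≤ n + (G * (b + 1) + (k : ℕ)) ∧
      (n + (G * (b + 1) + (k : ℕ)) - n) / (b + 1) < G) := by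
    rintro ⟨_, h⟩
    rw [e0, Nat.div_lt_iff_lt_mul (Nat.succ_pos b)] at h
    have : G * (b + 1) = G * b.succ := rfl
    omega
  have h6 : ¬ (n + (G * (b + 1) + (k : ℕ)) - n) / (b + 1) < G := fun h => h5 ⟨by omega, h⟩
  have hs : (C.prot own enc dec b hN).speakers (n + (G * (b + 1) + k)) = univ := by
    simp only [prot]; rw [dif_neg h1, dif_neg h6]
  rw [hs, if_pos (mem_univ p)]
  have h7 : n + (G * (b + 1) + (k : ℕ)) - (n + G * (b + 1)) < m := by
    have := k.2; omega
  simp only [prot, dif_neg h4, dif_neg h5, dif_pos h7]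
  congr 1
  exact Fin.ext (by simp only; omega)

end

end SumCircuit

end Pool.Agent.Work.MP_2ceb02_lc
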