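import Pool.Agent.Work.MP_2ceb02_lc.Sym.Prot

/-!
# Correctness, security and cost of the protocol
-/

namespace Pool.Agent.Work.MP_2ceb02_lc

open Finset

/-- A criterion for security. -/
theorem Protocol.secure_of_equiv {N n m : ℕ} {own : Fin n → Fin N} (P : Protocol N n m own)
    (f : (Fin n → ZMod 2) → Fin m → ZMod 2)
    (H : ∀ (T : Finset (Fin N)) (h : Fin N), h ∉ T → ∀ x x' : Fin n → ZMod 2,
      (∀ j, own j ∈ T → x j = x' j) → f x = f x' →
      ∃ e : P.Rand ≃ P.Rand, ∀ ω, P.view T x' (e ω) = P.view T x ω) : P.Secure f := by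
  classical
  intro T hT
  obtain ⟨h, hh⟩ : ∃ h, h ∉ T := by
    by_contra hc
    push Not at hc
    exact hT (Finset.eq_univ_iff_forall.2 hc)
  let _ : Fintype P.Rand := P.fin
  have _ : Nonempty P.Rand := P.ne
  refine ⟨fun y o => if hc : ∃ x : Fin n → ZMod 2, (fun j : {j // own j ∈ T} => x j) = y ∧
      f x = o
    then (PMF.uniformOfFintype P.Rand).map (P.view T hc.choose)
    else (PMF.uniformOfFintype P.Rand).map (P.view T 0), ?_⟩
  intro x
  have hc : ∃ x₁ : Fin n → ZMod 2, (fun j : {j // own j ∈ T} => x₁ j) =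
      (fun j : {j // own j ∈ T} => x j) ∧ f x₁ = f x := ⟨x, rfl, rfl⟩
  beta_reduce
  rw [dif_pos hc]
  set x' := hc.choose with hx'
  have hspec := hc.choose_spec
  obtain ⟨e, he⟩ := H T h hh x x' (fun j hj => (congrFun hspec.1 ⟨j, hj⟩).symm) hspec.2.symm
  have e1 : P.view T x = P.view T x' ∘ e := by
    funext ω
    exact (he ω).symm
  rw [e1]
  exact LocalProg.map_uniform e _

/-- Adding `d` to the share of `h`. -/
def upd {A : Type*} [Add A] {N : ℕ} (h : Fin N) (f : Fin N → A) (d : A) : Fin N → A :=
  fun p => if p = h then f p + d else f p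

theorem sum_upd {A : Type*} [AddCommMonoid A] {N : ℕ} (h : Fin N) (f : Fin N → A) (d : A) :
    ∑ p, upd h f d p = ∑ p, f p + d := by
  have h1 : ∀ p, upd h f d p = f p + (if p = h then d else 0) := by
    intro p
    simp only [upd]
    split_ifs <;> simp
  rw [Finset.sum_congr rfl (fun p _ => h1 p), Finset.sum_add_distrib, Finset.sum_ite_eq',
    if_pos (mem_univ _)]

theorem upd_self {A : Type*} [Add A] {N : ℕ} (h : Fin N) (f : Fin N → A) (d : A) :
    upd h f d h = f h + d := by simp [upd]

theorem upd_ne {A : Type*} [Add A] {N : ℕ} {h p : Fin N} (hp : p ≠ h) (f : Fin N → A) (d : A) :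
    upd h f d p = f p := by simp [upd, hp]

theorem upd_upd {A : Type*} [AddCommGroup A] {N : ℕ} (h : Fin N) (f : Fin N → A) (d d' : A)
    (hd : d + d' = 0) : upd h (upd h f d) d' = f := by
  funext p
  simp only [upd]
  split_ifs with hp
  · rw [add_assoc, hd, add_zero]
  · rfl

namespace SumCircuit

variable {n m G l : ℕ} (C : SumCircuit n m G l)

theorem two_self (a : ZMod 2) : a + a = 0 := CharTwo.add_self_eq_zero a

variable {N : ℕ} (own : Fin n → Fin N) {b : ℕ} {bl : Fin G → ℕ}
  (enc : (g : Fin G) → ZMod (C.md g) → Fin (bl g) → ZMod 2)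
  (dec : (g : Fin G) → (Fin (bl g) → ZMod 2) → ZMod (C.md g))

/-- The values to be shared. -/
def TK (r : Fin (n + G) → ZMod 2) (g : Fin G) (a : Fin (C.terms g)) (y : Fin l → ZMod 2) :
    ZMod (C.md g) := C.term g a (fun i => y i + C.fs g a (RR n G r) i)

/-- The values to be shared. -/
def TT (r : Fin (n + G) → ZMod 2) (ρ : (g : Fin G) → Fin N → ZMod (C.md g)) (g : Fin G)
    (u : ZMod (C.md g)) : ZMod 2 := C.act g (u - ∑ p, ρ g p) + RR n G r (n + g)

section

variable (hN : 0 < N) (x : Fin n → ZMod 2) (ω : C.Rnd N)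
  (hed : ∀ g u, dec g (enc g u) = u) (hbl : ∀ g, bl g ≤ b)

theorem TK_eq (r : Fin (n + G) → ZMod 2) (g : Fin G) (a : Fin (C.terms g)) (z : ℕ → ZMod 2)
    (h : ∀ w < n + (g : ℕ), z w = C.wire x w + RR n G r w) :
    C.TK r g a (C.fs g a z) = C.term g a (C.fs g a (C.wire x)) := by
  unfold TK
  congr 1
  rw [C.fs_congr h, C.fs_add]
  funext i
  rw [add_assoc, two_self, add_zero]

include hed hbl in
theorem U_eq (g : Fin G)
    (h : ∀ w < n + (g : ℕ), Z b n ((C.prot own enc dec b hN).bit x ω) w =
      C.wire x w + RR n G ω.r w) :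
    C.U b dec ((C.prot own enc dec b hN).bit x ω) g = C.tot g (C.wire x) + ∑ p, ω.ρ g p := by
  have e1 : ∀ p, dec g (fun i : Fin (bl g) => (C.prot own enc dec b hN).bit x ω
      (n + g * (b + 1) + i) p) = C.share b (fun g a => ω.K g a p) (fun g => ω.ρ g p)
        ((C.prot own enc dec b hN).bit x ω) g := by
    intro p
    rw [← hed g (C.share b (fun g a => ω.K g a p) (fun g => ω.ρ g p)
        ((C.prot own enc dec b hN).bit x ω) g)]
    congr 1
    funext i
    rw [Nat.add_assoc]
    exact C.bit_share own enc dec hN x ω hbl g i p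
  unfold U
  rw [Finset.sum_congr rfl (fun p _ => e1 p)]
  simp only [share]
  rw [Finset.sum_add_distrib, Finset.sum_comm]
  congr 1
  unfold tot
  refine Finset.sum_congr rfl fun a _ => ?_
  rw [ω.hK]
  exact C.TK_eq x ω.r g a _ h

include hed hbl in
theorem pub (w : ℕ) (hw : w < n + G) :
    Z b n ((C.prot own enc dec b hN).bit x ω) w = C.wire x w + RR n G ω.r w := by
  induction w using Nat.strong_induction_on with
  | _ w ih =>
    by_cases h : w < n
    · have := fun q => C.bit_input own (b := b) enc dec hN x ω ⟨w, h⟩ q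
      simp only at this
      unfold Z
      rw [if_pos h, Finset.sum_congr rfl (fun q _ => this q), Finset.sum_ite_eq,
        if_pos (mem_univ _), ← C.wire_input x ⟨w, h⟩]
    · obtain ⟨g, rfl⟩ : ∃ g : Fin G, w = n + g := ⟨⟨w - n, by omega⟩, by simp only; omega⟩
      have hU := C.U_eq own enc dec hN x ω hed hbl g (fun w hw => ih w hw (by omega))
      unfold Z
      rw [if_neg h, C.wire_gate]
      have e0 : n + (n + (g : ℕ) - n) * (b + 1) + b = n + (g * (b + 1) + b) := by
        rw [Nat.add_sub_cancel_left, Nat.add_assoc]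
      rw [e0, Finset.sum_congr rfl (fun p _ => C.bit_table own enc dec hN x ω hbl g p), ω.hT, hU,
        add_sub_cancel_right]

include hed hbl in
theorem correct : (C.prot own enc dec b hN).Correct C.eval := by
  intro x ω p
  funext k
  show C.fo k (Z b n (hx (n + (G * (b + 1) + m))
    (fun t : Fin (n + (G * (b + 1) + m)) => (C.prot own enc dec b hN).bit x ω t))) +
    ∑ q, (C.prot own enc dec b hN).bit x ω (n + (G * (b + 1) + k)) q = _
  rw [hx_eq, Finset.sum_congr rfl (fun p _ => C.bit_out own enc dec hN x ω k p), ω.hO]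
  have e1 : C.fo k (Z b n (trunc (n + (G * (b + 1) + m)) ((C.prot own enc dec b hN).bit x ω))) =
      C.fo k (fun w => C.wire x w + RR n G ω.r w) := by
    apply C.fo_congr
    intro w hw
    rw [Z_trunc b _ G (by omega) _ w hw, C.pub own enc dec hN x ω hed hbl w hw]
  rw [e1, C.fo_add, add_assoc, two_self, add_zero]
  rfl

end

/-- The change of the masks. -/
def sr (x x' : Fin n → ZMod 2) (r : Fin (n + G) → ZMod 2) : Fin (n + G) → ZMod 2 :=
  fun i => r i + (C.wire x i + C.wire x' i)

/-- The change of the randomness of the dealer. -/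
def shift (x x' : Fin n → ZMod 2) (h : Fin N) (ω : C.Rnd N) : C.Rnd N where
  r := C.sr x x' ω.r
  ρ := fun g => upd h (ω.ρ g) (C.tot g (C.wire x) - C.tot g (C.wire x'))
  K := fun g a p y => upd h (fun p => ω.K g a p y)
    (C.TK (C.sr x x' ω.r) g a y - C.TK ω.r g a y) p
  T := fun g p u => upd h (fun p => ω.T g p u)
    (C.TT (C.sr x x' ω.r) (fun g => upd h (ω.ρ g) (C.tot g (C.wire x) - C.tot g (C.wire x'))) g u -
      C.TT ω.r ω.ρ g u) p
  O := fun k => upd h (ω.O k) (C.fo k (RR n G (C.sr x x' ω.r)) - C.fo k (RR n G ω.r))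
  hK := by
    intro g a y
    rw [sum_upd, ω.hK]
    unfold TK
    abel
  hT := by
    intro g u
    rw [sum_upd, ω.hT]
    unfold TT
    abel
  hO := by
    intro k
    rw [sum_upd, ω.hO]
    abel

theorem sr_sr (x x' : Fin n → ZMod 2) (r : Fin (n + G) → ZMod 2) :
    C.sr x' x (C.sr x x' r) = r := by
  funext i
  simp only [sr]
  linear_combination two_self (C.wire x i) + two_self (C.wire x' i)

theorem shift_shift (x x' : Fin n → ZMod 2) (h : Fin N) (ω : C.Rnd N) :
    C.shift x' x h (C.shift x x' h ω) = ω := by
  have e2 : (fun g => upd h (upd h (ω.ρ g) (C.tot g (C.wire x) - C.tot g (C.wire x')))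
      (C.tot g (C.wire x') - C.tot g (C.wire x))) = ω.ρ := by
    funext g
    exact upd_upd h _ _ _ (by abel)
  apply Rnd.ext
  · exact C.sr_sr x x' ω.r
  · exact e2
  · funext g a p y
    show upd h (upd h (fun p => ω.K g a p y) (C.TK (C.sr x x' ω.r) g a y - C.TK ω.r g a y))
      (C.TK (C.sr x' x (C.sr x x' ω.r)) g a y - C.TK (C.sr x x' ω.r) g a y) p = _
    rw [C.sr_sr, upd_upd h _ _ _ (by abel)]
  · funext g p u
    show upd h (upd h (fun p => ω.T g p u) _) (C.TT (C.sr x' x (C.sr x x' ω.r))
      (fun g => upd h (upd h (ω.ρ g) (C.tot g (C.wire x) - C.tot g (C.wire x')))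
      (C.tot g (C.wire x') - C.tot g (C.wire x))) g u - _) p = _
    rw [C.sr_sr, e2, upd_upd h _ _ _ (by simp only [shift]; abel)]
  · funext k
    show upd h (upd h (ω.O k) _) (C.fo k (RR n G (C.sr x' x (C.sr x x' ω.r))) - _) = _
    rw [C.sr_sr, upd_upd h _ _ _ (by simp only [shift]; abel)]

/-- `shift` as an equivalence. -/
def shiftEquiv (x x' : Fin n → ZMod 2) (h : Fin N) : C.Rnd N ≃ C.Rnd N where
  toFun := C.shift x x' h
  invFun := C.shift x' x h
  left_inv := C.shift_shift x x' h
  right_inv := C.shift_shift x' x h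

theorem RR_sr (x x' : Fin n → ZMod 2) (r : Fin (n + G) → ZMod 2) (w : ℕ) (hw : w < n + G) :
    RR n G (C.sr x x' r) w = RR n G r w + (C.wire x w + C.wire x' w) := by
  simp [RR, sr, hw]

theorem wire_RR_sr (x x' : Fin n → ZMod 2) (r : Fin (n + G) → ZMod 2) (w : ℕ) (hw : w < n + G) :
    C.wire x' w + RR n G (C.sr x x' r) w = C.wire x w + RR n G r w := by
  rw [C.RR_sr x x' r w hw]
  linear_combination two_self (C.wire x' w)

section

variable (hN : 0 < N) (hed : ∀ g u, dec g (enc g u) = u) (hbl : ∀ g, bl g ≤ b)

include hed hbl in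
theorem bit_shift (x x' : Fin n → ZMod 2) (h : Fin N) (ω : C.Rnd N)
    (ho : C.eval x = C.eval x') (t : ℕ) (ht : t < n + (G * (b + 1) + m)) (p : Fin N) :
    (C.prot own enc dec b hN).bit x' (C.shift x x' h ω) t p =
      (C.prot own enc dec b hN).bit x ω t p := by
  induction t using Nat.strong_induction_on generalizing p with
  | _ t ih =>
    by_cases hn : t < n
    · have h1 := C.bit_input own (b := b) enc dec hN x ω ⟨t, hn⟩ p
      have h2 := C.bit_input own (b := b) enc dec hN x' (C.shift x x' h ω) ⟨t, hn⟩ p
      simp only at h1 h2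
      rw [h1, h2]
      split_ifs with hp
      · rw [← C.wire_input x ⟨t, hn⟩, ← C.wire_input x' ⟨t, hn⟩]
        exact C.wire_RR_sr x x' ω.r t (by omega)
      · rfl
    · by_cases hg : t < n + G * (b + 1)
      · -- a gate
        have hgG : (t - n) / (b + 1) < G := by
          rw [Nat.div_lt_iff_lt_mul (Nat.succ_pos b)]
          have : G * (b + 1) = G * b.succ := rfl
          omega
        obtain ⟨g, hgd⟩ : ∃ g : Fin G, (g : ℕ) = (t - n) / (b + 1) := ⟨⟨_, hgG⟩, rfl⟩
        have hmod : (t - n) % (b + 1) < b + 1 := Nat.mod_lt _ (Nat.succ_pos b)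
        have hdm : (b + 1) * ((t - n) / (b + 1)) + (t - n) % (b + 1) = t - n :=
          Nat.div_add_mod _ _
        rw [← hgd, Nat.mul_comm] at hdm
        generalize (t - n) % (b + 1) = i at hmod hdm
        have hgb : (g : ℕ) * (b + 1) + (b + 1) ≤ G * (b + 1) := by
          have : ((g : ℕ) + 1) * (b + 1) ≤ G * (b + 1) := Nat.mul_le_mul_right _ g.2
          have e : ((g : ℕ) + 1) * (b + 1) = g * (b + 1) + (b + 1) := by ring
          omega
        -- the public values agree
        have hZ : ∀ w < n + (g : ℕ), Z b n ((C.prot own enc dec b hN).bit x'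
            (C.shift x x' h ω)) w = Z b n ((C.prot own enc dec b hN).bit x ω) w := by
          intro w hw
          unfold Z
          split_ifs with hwn
          · exact Finset.sum_congr rfl fun p _ => ih w (by omega) (by omega) p
          · refine Finset.sum_congr rfl fun p _ => ?_
            have := pos_lt b (show w - n < g by omega)
            exact ih _ (by omega) (by omega) p
        have hpub : ∀ w < n + (g : ℕ), Z b n ((C.prot own enc dec b hN).bit x ω) w =
            C.wire x w + RR n G ω.r w :=
          fun w hw => C.pub own enc dec hN x ω hed hbl w (by omega)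
        have hpub' : ∀ w < n + (g : ℕ), Z b n ((C.prot own enc dec b hN).bit x ω) w =
            C.wire x' w + RR n G (C.sr x x' ω.r) w := by
          intro w hw
          rw [C.wire_RR_sr x x' ω.r w (by omega)]
          exact hpub w hw
        have hblg := hbl g
        rcases Nat.lt_or_ge i (bl g) with hib | hib
        · obtain rfl : t = n + (g * (b + 1) + i) := by omega
          have h1 := C.bit_share own enc dec hN x ω hbl g ⟨i, hib⟩ p
          have h2 := C.bit_share own enc dec hN x' (C.shift x x' h ω) hbl g ⟨i, hib⟩ p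
          simp only at h1 h2
          rw [h1, h2]
          refine congrArg (fun s => enc g s ⟨i, hib⟩) ?_
          rw [C.share_congr b _ _ _ _ g hZ]
          by_cases hp : p = h
          · subst hp
            unfold share
            simp only [shift, upd_self]
            rw [Finset.sum_add_distrib, Finset.sum_sub_distrib]
            have t1 : ∑ a, C.TK ω.r g a (C.fs g a (Z b n ((C.prot own enc dec b hN).bit x ω))) =
                C.tot g (C.wire x) :=
              Finset.sum_congr rfl fun a _ => C.TK_eq x ω.r g a _ hpub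
            have t2 : ∑ a, C.TK (C.sr x x' ω.r) g a
                (C.fs g a (Z b n ((C.prot own enc dec b hN).bit x ω))) = C.tot g (C.wire x') :=
              Finset.sum_congr rfl fun a _ => C.TK_eq x' (C.sr x x' ω.r) g a _ hpub'
            rw [t1, t2]
            abel
          · unfold share
            simp only [shift, upd_ne hp]
        · by_cases hibb : i = b
          · subst hibb
            obtain rfl : t = n + (g * (i + 1) + i) := by omega
            rw [C.bit_table own enc dec hN x ω hbl g p,
              C.bit_table own enc dec hN x' (C.shift x x' h ω) hbl g p]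
            have hU : C.U i dec ((C.prot own enc dec i hN).bit x' (C.shift x x' h ω)) g =
                C.U i dec ((C.prot own enc dec i hN).bit x ω) g := by
              unfold U
              refine Finset.sum_congr rfl fun p _ => ?_
              congr 1
              funext j
              exact ih _ (by have := j.2; omega) (by have := j.2; omega) p
            rw [hU]
            by_cases hp : p = h
            · subst hp
              have e1 := C.U_eq own enc dec hN x ω hed hbl g hpub
              have e2 : C.U i dec ((C.prot own enc dec i hN).bit x ω) g = C.tot g (C.wire x') +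
                  ∑ p', upd p (ω.ρ g) (C.tot g (C.wire x) - C.tot g (C.wire x')) p' := by
                rw [sum_upd, e1]; abel
              simp only [shift, upd_self]
              have e3 : C.TT ω.r ω.ρ g (C.U i dec ((C.prot own enc dec i hN).bit x ω) g) =
                  C.wire x (n + g) + RR n G ω.r (n + g) := by
                unfold TT
                rw [e1, add_sub_cancel_right, C.wire_gate]
              have e4 : C.TT (C.sr x x' ω.r) (fun g => upd p (ω.ρ g)
                  (C.tot g (C.wire x) - C.tot g (C.wire x'))) g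
                  (C.U i dec ((C.prot own enc dec i hN).bit x ω) g) =
                  C.wire x' (n + g) + RR n G (C.sr x x' ω.r) (n + g) := by
                unfold TT
                rw [e2, add_sub_cancel_right, C.wire_gate]
              rw [e3, e4, C.wire_RR_sr x x' ω.r _ (by omega), sub_self, add_zero]
            · simp only [shift, upd_ne hp]
          · -- a silent round
            have hsil : ∀ (x : Fin n → ZMod 2) (ω : C.Rnd N),
                (C.prot own enc dec b hN).bit x ω t p = 0 := by
              intro x ω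
              obtain rfl : t = n + (g * (b + 1) + i) := by omega
              exact C.bit_silent own enc dec hN x ω g i hib hibb (by omega) p
            rw [hsil, hsil]
      · -- an output
        obtain ⟨k, rfl⟩ : ∃ k : Fin m, t = n + (G * (b + 1) + k) :=
          ⟨⟨t - (n + G * (b + 1)), by omega⟩, by simp only; omega⟩
        rw [C.bit_out own enc dec hN x ω k p, C.bit_out own enc dec hN x' _ k p]
        by_cases hp : p = h
        · subst hp
          simp only [shift, upd_self]
          have e1 : C.fo k (RR n G (C.sr x x' ω.r)) = C.fo k (RR n G ω.r) := by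
            have e2 : C.fo k (RR n G (C.sr x x' ω.r)) =
                C.fo k (fun w => RR n G ω.r w + (C.wire x w + C.wire x' w)) :=
              C.fo_congr fun w hw => C.RR_sr x x' ω.r w hw
            rw [e2, C.fo_add, C.fo_add]
            have e3 : C.fo k (C.wire x) = C.fo k (C.wire x') := congrFun ho k
            rw [e3, two_self, add_zero]
          rw [e1, sub_self, add_zero]
        · simp only [shift, upd_ne hp]

include hed hbl in
theorem secure : (C.prot own enc dec b hN).Secure C.eval := by
  apply Protocol.secure_of_equiv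
  intro T h hh x x' hx ho
  refine ⟨C.shiftEquiv x x' h, fun ω => ?_⟩
  refine Prod.ext ?_ ?_
  · funext p
    have hp : (p : Fin N) ≠ h := fun e => hh (e ▸ p.2)
    refine Prod.ext ?_ (Prod.ext ?_ (Prod.ext ?_ (Prod.ext ?_ ?_)))
    · funext j
      show C.sr x x' ω.r ⟨j.1, by omega⟩ = ω.r ⟨j.1, by omega⟩
      simp only [sr]
      have hj : own j.1 ∈ T := by rw [j.2]; exact p.2
      rw [C.wire_input, C.wire_input, hx _ hj, two_self, add_zero]
    · funext g
      show (C.shift x x' h ω).ρ g p = ω.ρ g p
      simp only [shift, upd_ne hp]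
    · funext g a y
      show (C.shift x x' h ω).K g a p y = ω.K g a p y
      simp only [shift, upd_ne hp]
    · funext g u
      show (C.shift x x' h ω).T g p u = ω.T g p u
      simp only [shift, upd_ne hp]
    · funext k
      show (C.shift x x' h ω).O k p = ω.O k p
      simp only [shift, upd_ne hp]
  · funext t p
    exact C.bit_shift own enc dec hN hed hbl x x' h ω ho t t.2 p

omit hN in
theorem sum_blocks (f : ℕ → ℕ) (b : ℕ) (G : ℕ) : ∑ t ∈ range (G * (b + 1)), f t =
    ∑ g ∈ range G, ∑ i ∈ range (b + 1), f (g * (b + 1) + i) := by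
  induction G with
  | zero => simp
  | succ G ih =>
    rw [Nat.succ_mul, Finset.sum_range_add, ih,
      Finset.sum_range_succ (fun g => ∑ i ∈ range (b + 1), f (g * (b + 1) + i)) G]

include hbl in
theorem comm_eq : (C.prot own enc dec b hN).comm = n + N * (m + ∑ g, (bl g + 1)) := by
  show ∑ t ∈ range (n + (G * (b + 1) + m)), _ = _
  rw [Finset.sum_range_add]
  congr 1
  · rw [Finset.sum_congr rfl (g := fun _ => 1)]
    · simp
    · intro t ht
      have : t < n := mem_range.1 ht
      simp [prot, this]
  · rw [Finset.sum_range_add, sum_blocks]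
    have e1 : ∑ t ∈ range m, ((C.prot own enc dec b hN).speakers
        (n + (G * (b + 1) + t))).card = m * N := by
      rw [Finset.sum_congr rfl (g := fun _ => N)]
      · simp
      · intro t _
        have h1 : ¬ (n + (G * (b + 1) + t) < n) := by omega
        have h6 : ¬ (n + (G * (b + 1) + t) - n) / (b + 1) < G := by
          intro h
          rw [Nat.add_sub_cancel_left, Nat.div_lt_iff_lt_mul (Nat.succ_pos b)] at h
          have : G * (b + 1) = G * b.succ := rfl
          omega
        simp only [prot]
        rw [dif_neg h1, dif_neg h6, card_univ, Fintype.card_fin]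
    have e2 : ∑ g ∈ range G, ∑ i ∈ range (b + 1), ((C.prot own enc dec b hN).speakers
        (n + (g * (b + 1) + i))).card = ∑ g : Fin G, (bl g + 1) * N := by
      rw [Finset.sum_range]
      refine Finset.sum_congr rfl fun g _ => ?_
      have hb := hbl g
      have h0 : ∀ i ∈ range (b + 1), ((C.prot own enc dec b hN).speakers
          (n + (g * (b + 1) + i))).card = if i < bl g ∨ i = b then N else 0 := by
        intro i hi
        have hi' := mem_range.1 hi
        have h1 : ¬ (n + ((g : ℕ) * (b + 1) + i) < n) := by omega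
        have e0 : n + ((g : ℕ) * (b + 1) + i) - n = g * (b + 1) + i := by omega
        have hdm := (Nat.div_mod_unique (a := (g : ℕ) * (b + 1) + i) (b := b + 1) (c := i)
          (d := g) (Nat.succ_pos b)).2 ⟨by ring, by omega⟩
        have h5 : (n + ((g : ℕ) * (b + 1) + i) - n) / (b + 1) < G := by
          rw [e0, hdm.1]; exact g.2
        have hg' : (⟨(n + ((g : ℕ) * (b + 1) + i) - n) / (b + 1), h5⟩ : Fin G) = g :=
          Fin.ext (by simp only; rw [e0, hdm.1])
        have h7 : (n + ((g : ℕ) * (b + 1) + i) - n) % (b + 1) = i := by rw [e0, hdm.2]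
        simp only [prot]
        rw [dif_neg h1, dif_pos h5, hg', h7]
        split_ifs <;> simp
      rw [Finset.sum_congr rfl h0, ← Finset.sum_filter, Finset.sum_const, smul_eq_mul]
      congr 1
      have hf : (range (b + 1)).filter (fun i => i < bl g ∨ i = b) = insert b (range (bl g)) := by
        ext i
        simp only [mem_filter, mem_range, mem_insert]
        omega
      rw [hf, card_insert_of_notMem (by simp only [mem_range]; omega), card_range]
    rw [e1, e2, ← Finset.sum_mul]
    ring

theorem storage_le (hq : ∀ g, C.md g ≤ 2 ^ bl g) :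
    (C.prot own enc dec b hN).StorageLe (n + m + ∑ g, (C.md g + bl g * (1 + 2 ^ l * C.terms g))) := by
  intro p
  have i0 : ∀ g, Finite (ZMod (C.md g)) := fun g => inferInstance
  have i1 : Finite ((g : Fin G) → Fin (C.terms g) → (Fin l → ZMod 2) →
      ZMod (C.md g)) := inferInstance
  have i2 : Finite ((g : Fin G) → ZMod (C.md g) → ZMod 2) := inferInstance
  have i3 : Finite ((g : Fin G) → ZMod (C.md g)) := inferInstance
  have i4 : Finite (Fin m → ZMod 2) := inferInstance
  have i5 : Finite ({j : Fin n // own j = p} → ZMod 2) := inferInstance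
  refine ⟨@Finite.instProd _ _ i5 (@Finite.instProd _ _ i3 (@Finite.instProd _ _ i1
    (@Finite.instProd _ _ i2 i4))), ?_⟩
  show Nat.card (({j : Fin n // own j = p} → ZMod 2) × ((g : Fin G) → ZMod (C.md g)) ×
    ((g : Fin G) → Fin (C.terms g) → (Fin l → ZMod 2) → ZMod (C.md g)) ×
    ((g : Fin G) → ZMod (C.md g) → ZMod 2) × (Fin m → ZMod 2)) ≤ _
  rw [Nat.card_prod, Nat.card_prod, Nat.card_prod, Nat.card_prod]
  have h1 : Nat.card ({j : Fin n // own j = p} → ZMod 2) ≤ 2 ^ n := by
    rw [Nat.card_pi]
    simp only [Nat.card_zmod, Finset.prod_const]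
    refine Nat.pow_le_pow_right (by norm_num) ?_
    refine le_trans (Finset.card_le_univ _) ?_
    refine le_trans (Fintype.card_subtype_le _) ?_
    simp
  have h2 : Nat.card ((g : Fin G) → ZMod (C.md g)) ≤ 2 ^ (∑ g, bl g) := by
    rw [Nat.card_pi, ← Finset.prod_pow_eq_pow_sum]
    refine Finset.prod_le_prod' fun g _ => ?_
    rw [Nat.card_zmod]
    exact hq g
  have h3 : Nat.card ((g : Fin G) → Fin (C.terms g) → (Fin l → ZMod 2) → ZMod (C.md g)) ≤
      2 ^ (∑ g, bl g * (2 ^ l * C.terms g)) := by
    rw [Nat.card_pi, ← Finset.prod_pow_eq_pow_sum]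
    refine Finset.prod_le_prod' fun g _ => ?_
    rw [Nat.card_pi]
    simp only [Nat.card_pi, Nat.card_zmod, Finset.prod_const, card_univ, Fintype.card_fin,
      Fintype.card_pi, ZMod.card]
    rw [← pow_mul, pow_mul 2 (bl g)]
    exact Nat.pow_le_pow_left (hq g) _
  have h5 : Nat.card ((g : Fin G) → ZMod (C.md g) → ZMod 2) ≤ 2 ^ (∑ g, C.md g) := by
    rw [Nat.card_pi, ← Finset.prod_pow_eq_pow_sum]
    refine Finset.prod_le_prod' fun g _ => ?_
    simp only [Nat.card_pi, Nat.card_zmod, Finset.prod_const, card_univ, ZMod.card]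
    exact le_rfl
  have h6 : Nat.card (Fin m → ZMod 2) ≤ 2 ^ m := by
    rw [Nat.card_pi]
    simp
  calc _ ≤ 2 ^ n * (2 ^ (∑ g, bl g) * (2 ^ (∑ g, bl g * (2 ^ l * C.terms g)) *
        (2 ^ (∑ g, C.md g) * 2 ^ m))) :=
        Nat.mul_le_mul h1 (Nat.mul_le_mul h2 (Nat.mul_le_mul h3 (Nat.mul_le_mul h5 h6)))
    _ = 2 ^ (n + m + ∑ g, (C.md g + bl g * (1 + 2 ^ l * C.terms g))) := by
        rw [← pow_add, ← pow_add, ← pow_add, ← pow_add]
        congr 1
        have : ∑ g, (C.md g + bl g * (1 + 2 ^ l * C.terms g)) =
            ∑ g, C.md g + (∑ g, bl g + ∑ g, bl g * (2 ^ l * C.terms g)) := by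
          rw [← Finset.sum_add_distrib, ← Finset.sum_add_distrib]
          refine Finset.sum_congr rfl fun g _ => ?_
          ring
        rw [this]
        ring

end

/-- The protocol theorem for circuits of generalized symmetric gates. -/
theorem exists_protocol {N : ℕ} (hN : 0 < N) (own : Fin n → Fin N) :
    ∃ P : Protocol N n m own, P.Correct C.eval ∧ P.Secure C.eval ∧
      P.comm = n + N * (m + ∑ g, (Nat.clog 2 (C.md g) + 1)) ∧
      P.StorageLe (n + m + ∑ g, (C.md g + Nat.clog 2 (C.md g) * (1 + 2 ^ l * C.terms g))) := by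
  classical
  have hq2 : ∀ g, C.md g ≤ 2 ^ Nat.clog 2 (C.md g) := fun g =>
    Nat.le_pow_clog (by norm_num) _
  have hcard : ∀ g, Nonempty (ZMod (C.md g) ↪ (Fin (Nat.clog 2 (C.md g)) → ZMod 2)) := by
    intro g
    apply Function.Embedding.nonempty_of_card_le
    simpa using hq2 g
  have e : ∀ g, ZMod (C.md g) ↪ (Fin (Nat.clog 2 (C.md g)) → ZMod 2) := fun g =>
    Classical.choice (hcard g)
  obtain ⟨b, hb⟩ : ∃ b, ∀ g, Nat.clog 2 (C.md g) ≤ b :=
    ⟨∑ g, Nat.clog 2 (C.md g), fun g => Finset.single_le_sum
      (f := fun g => Nat.clog 2 (C.md g)) (fun _ _ => Nat.zero_le _) (mem_univ g)⟩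
  have hed : ∀ (g : Fin G) (u : ZMod (C.md g)), Function.invFun (e g) (e g u) = u :=
    fun g => Function.leftInverse_invFun (e g).injective
  exact ⟨C.prot own (fun g => e g) (fun g => Function.invFun (e g)) b hN,
    C.correct own _ _ hN hed hb, C.secure own _ _ hN hed hb, C.comm_eq own _ _ hN hb,
    C.storage_le own _ _ hN hq2⟩

end SumCircuit

end Pool.Agent.Work.MP_2ceb02_lc
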